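import Pool.Agent.J6H90.FibCong.Final

/-!
# Fibonacci and Lucas sums with central binomial coefficients modulo `p²`

All four congruences of Q1 hold for every prime `p ≠ 2, 5`.

Idea. For `α + 1/α = 2 - t` one has
`α^p + α^(-p) = 2 - ∑_{k=1}^p (2p²/(k² c_k)) ∏_{j<k} (1 - p²/j²) t^k`; at `t = φ²` (`φ` the golden
ratio) the left-hand side is periodic in `p`, as `α` is a tenth root of unity. So the first two sums
are `(ε - F_{2p}) / (2p)` and `(3 - L_{2p}) / (2p)` modulo `p²`. Likewise the last two are, up to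
the sign, `(ε - F_p) / p` and `(1 - L_p) / p`. The rest is algebra with `L_p² - 5 F_p² = -4`.
-/

namespace Pool.Agent.Results.MP_0a65fc_nt.FourCongruences

open Finset

/-- The Lucas numbers `2, 1, 3, 4, 7, …`. -/
def lucas : ℕ → ℤ
  | 0 => 2
  | 1 => 1
  | n + 2 => lucas (n + 1) + lucas n

/-- `a ≡ b (mod p²)` for rational numbers: `a - b = p² c` with `c` a rational number whose
denominator is not divisible by the prime `p`. -/
def Cong (p : ℕ) (a b : ℚ) : Prop := ∃ c : ℚ, ¬ p ∣ c.den ∧ a - b = (p : ℚ) ^ 2 * c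

lemma lucas_eq (n : ℕ) : lucas n = Pool.Agent.J6H90.FibCong.luc n ∧
    lucas (n + 1) = Pool.Agent.J6H90.FibCong.luc (n + 1) := by
  induction n with
  | zero => exact ⟨rfl, rfl⟩
  | succ n ih =>
    refine ⟨ih.2, ?_⟩
    change lucas (n + 1) + lucas n
      = Pool.Agent.J6H90.FibCong.luc (n + 1) + Pool.Agent.J6H90.FibCong.luc n
    rw [ih.1, ih.2]

lemma jacobi_eq {p : ℕ} (h5 : p % 5 ≠ 0) : jacobiSym p 5 = Pool.Agent.J6H90.FibCong.ep p := by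
  rw [jacobiSym.mod_left]
  unfold Pool.Agent.J6H90.FibCong.ep
  have : (p : ℤ) % ((5 : ℕ) : ℤ) = ((p % 5 : ℕ) : ℤ) := by push_cast; rfl
  rw [this]
  have hlt : p % 5 < 5 := Nat.mod_lt _ (by norm_num)
  generalize p % 5 = r at *
  interval_cases r
  · exact absurd rfl h5
  · norm_num
  · norm_num
  · norm_num
  · norm_num

open Pool.Agent.J6H90.FibCong in
/-- **Q1: all four congruences hold for every prime `p ≠ 2, 5`**, where `ε = (p/5)` (the Jacobi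
symbol with lower argument the prime `5`, that is the Legendre symbol) and `q = F_{p-ε} / p`. -/
theorem result (p : ℕ) (hp : p.Prime) (h2 : p ≠ 2) (h5 : p ≠ 5) :
    let ε : ℤ := jacobiSym p 5
    let q : ℚ := (Nat.fib ((p : ℤ) - ε).toNat : ℚ) / p
    Cong p ((p : ℚ) * ∑ k ∈ Ico 1 p, (Nat.fib (2 * k) : ℚ) / ((k : ℚ) ^ 2 * Nat.choose (2 * k) k))
      (-ε * (3 * q / 2 + 5 * p * q ^ 2 / 4)) ∧
    Cong p ((p : ℚ) * ∑ k ∈ Ico 1 p, (lucas (2 * k) : ℚ) / ((k : ℚ) ^ 2 * Nat.choose (2 * k) k))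
      (-(5 * q / 2) - 15 * p * q ^ 2 / 4) ∧
    Cong p (∑ k ∈ range ((p - 1) / 2),
        (Nat.choose (2 * k) k : ℚ) * Nat.fib (2 * k + 1) / ((2 * k + 1) * 16 ^ k))
      ((-1) ^ ((p + 1) / 2) * ε * (q / 2 + 5 * p * q ^ 2 / 8)) ∧
    Cong p (∑ k ∈ range ((p - 1) / 2),
        (Nat.choose (2 * k) k : ℚ) * lucas (2 * k + 1) / ((2 * k + 1) * 16 ^ k))
      ((-1) ^ ((p + 1) / 2) * (5 * q / 2 + 5 * p * q ^ 2 / 8)) := by
  intro ε q
  have hodd : Odd p := hp.odd_of_ne_two h2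
  have h3 : 3 ≤ p := by have := hp.two_le; omega
  obtain ⟨m, hm⟩ : ∃ m, p = 2 * (m + 1) + 1 := by
    obtain ⟨M, hM⟩ := hodd
    exact ⟨M - 1, by omega⟩
  have h5' : p % 5 ≠ 0 := by
    intro h
    exact h5 ((Nat.prime_dvd_prime_iff_eq Nat.prime_five hp).1 (Nat.dvd_of_mod_eq_zero h)).symm
  have hε : ε = ep p := jacobi_eq h5'
  obtain ⟨f, l, hf, hl, hS3, hS4⟩ := data hp m hm h5
  have hrel := rel hp hodd hf hl
  have hfib := fib_sub_ep hp
  have hp0 : (p : ℚ) ≠ 0 := by exact_mod_cast hp.ne_zero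
  have he2 := ep_sq p
  have hq : q = ((l : ℚ) - (ep p : ℚ) * f) / 2 := by
    have : (2 : ℚ) * (Nat.fib ((p : ℤ) - ep p).toNat : ℚ) = p * ((l : ℚ) - (ep p : ℚ) * f) := by
      have h1 : ((2 * (Nat.fib ((p : ℤ) - ep p).toNat : ℤ) : ℤ) : ℚ)
          = ((luc p - ep p * Nat.fib p : ℤ) : ℚ) := by rw [hfib]
      push_cast at h1
      rw [h1]
      have h2 : ((Nat.fib p : ℤ) : ℚ) = ((ep p + p * f : ℤ) : ℚ) := by rw [hf]
      have h3 : ((luc p : ℤ) : ℚ) = ((1 + p * l : ℤ) : ℚ) := by rw [hl]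
      push_cast at h2 h3
      rw [h2, h3]
      linear_combination (-1 : ℚ) * he2
    change (Nat.fib ((p : ℤ) - ε).toNat : ℚ) / p = _
    rw [hε, div_eq_iff hp0]
    linear_combination this / 2
  have hrelq : 2 * (l : ℚ) - 10 * (ep p : ℚ) * f + p * ((l : ℚ) ^ 2 - 5 * (f : ℚ) ^ 2) = 0 := by
    exact_mod_cast hrel
  obtain ⟨a1, a2, a3, a4⟩ := algebra_facts he2 (r := (l : ℚ) ^ 2 - 5 * (f : ℚ) ^ 2) rfl hrelq hq
  -- integrality of the remainders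
  have i2 : ∀ k : ℕ, PInt p ((((2 ^ k : ℕ) : ℤ) : ℚ)⁻¹) := pint_inv_two_pow hp h2
  have hR : PInt p ((l : ℚ) ^ 2 - 5 * (f : ℚ) ^ 2) := by
    have : ((l : ℚ) ^ 2 - 5 * (f : ℚ) ^ 2) = ((l ^ 2 - 5 * f ^ 2 : ℤ) : ℚ) := by push_cast; ring
    rw [this]; exact PInt.int hp _
  have hE : PInt p (ep p : ℚ) := PInt.int hp _
  have hPp : PInt p (p : ℚ) := by exact_mod_cast PInt.int hp (p : ℤ)
  -- exact values of the sums
  have hcb : ∀ k : ℕ, (Nat.choose (2 * k) k : ℚ) = (Nat.centralBinom k : ℚ) := fun k => by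
    rw [Nat.centralBinom_eq_two_mul_choose]
  obtain ⟨n, hn⟩ : ∃ n, p = n + 1 := ⟨p - 1, by omega⟩
  obtain ⟨x1, x2⟩ := exactA n (by rwa [← hn]) (by rwa [← hn])
  have hsplit : ∀ g : ℕ → ℤ, ∑ k ∈ range (n + 2), ((-1) ^ k * (((n + 1 + k).choose (2 * k) : ℤ)
      + ((n + k).choose (2 * k) : ℤ))) * g k
      = 2 * g 0 + ∑ k ∈ Ico 1 p, ((-1) ^ k * (((p + k).choose (2 * k) : ℤ)
      + ((p - 1 + k).choose (2 * k) : ℤ))) * g k - g p := by
    intro g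
    rw [sum_range_succ, range_eq_Ico, sum_eq_sum_Ico_succ_bot (by omega)]
    have htop : (((n + 1 + (n + 1)).choose (2 * (n + 1)) : ℤ)
      + ((n + (n + 1)).choose (2 * (n + 1)) : ℤ)) = 1 := by
      rw [show n + 1 + (n + 1) = 2 * (n + 1) by ring, Nat.choose_self,
        Nat.choose_eq_zero_of_lt (by omega)]
      norm_num
    have hpn : p - 1 = n := by omega
    rw [htop, ← hn, hodd.neg_one_pow, hpn]
    simp
    ring
  rw [hsplit (fun k => (Nat.fib (2 * k) : ℤ))] at x1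
  rw [hsplit (fun k => luc (2 * k))] at x2
  rw [← hn] at x1
  have y1 : ∑ k ∈ Ico 1 p, ((-1) ^ k * (((p + k).choose (2 * k) : ℤ)
      + ((p - 1 + k).choose (2 * k) : ℤ))) * (Nat.fib (2 * k) : ℤ) = Nat.fib (2 * p) - ep p := by
    simp only [mul_zero, Nat.fib_zero, Nat.cast_zero, zero_add] at x1
    linear_combination x1
  have y2 : ∑ k ∈ Ico 1 p, ((-1) ^ k * (((p + k).choose (2 * k) : ℤ)
      + ((p - 1 + k).choose (2 * k) : ℤ))) * luc (2 * k) = luc (2 * p) - 3 := by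
    have hl0 : luc (2 * 0) = 2 := rfl
    rw [hl0] at x2
    linear_combination x2
  have z1 : (Nat.fib (2 * p) : ℤ) - ep p = p * (f + ep p * l + p * f * l) := by
    rw [fib_two_mul', hf, hl]; ring
  have z2 : luc (2 * p) - 3 = p * (2 * l + p * l ^ 2) := by
    rw [luc_two_mul, hl, hodd.neg_one_pow]; ring
  rw [z1] at y1
  rw [z2] at y2
  have hpm : (p - 1) / 2 = m + 1 := by omega
  have hpm' : (p + 1) / 2 = m + 2 := by omega
  refine ⟨?_, ?_, ?_, ?_⟩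
  · refine Cong.trans' hp (b := -((f : ℚ) + ep p * l + p * f * l) / 2) ?_ ?_
    · have hs := cong_sum hp (Ico 1 p)
        (fun k => (p : ℚ) * (((Nat.fib (2 * k) : ℤ) : ℚ) / ((k : ℚ) ^ 2 * Nat.centralBinom k)))
        (fun k => (-(((-1) ^ k * ((((p + k).choose (2 * k) : ℤ) : ℚ)
          + (((p - 1 + k).choose (2 * k) : ℤ) : ℚ))) * ((Nat.fib (2 * k) : ℤ) : ℚ)) / (2 * p)))
        (fun k hk => by
          rw [mem_Ico] at hk
          exact term1 hp h2 hk.1 hk.2 _)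
      have e1 : ∑ k ∈ Ico 1 p, (-(((-1) ^ k * ((((p + k).choose (2 * k) : ℤ) : ℚ)
          + (((p - 1 + k).choose (2 * k) : ℤ) : ℚ))) * ((Nat.fib (2 * k) : ℤ) : ℚ)) / (2 * p))
          = -((f : ℚ) + ep p * l + p * f * l) / 2 := by
        rw [← sum_div, sum_neg_distrib]
        have : ∑ k ∈ Ico 1 p, ((-1) ^ k * ((((p + k).choose (2 * k) : ℤ) : ℚ)
          + (((p - 1 + k).choose (2 * k) : ℤ) : ℚ))) * ((Nat.fib (2 * k) : ℤ) : ℚ)
          = p * ((f : ℚ) + ep p * l + p * f * l) := by exact_mod_cast y1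
        rw [this]
        field_simp
      rw [e1] at hs
      have e2 : (p : ℚ) * ∑ k ∈ Ico 1 p, (Nat.fib (2 * k) : ℚ) / ((k : ℚ) ^ 2 * Nat.choose (2 * k) k)
          = ∑ k ∈ Ico 1 p, (p : ℚ) * (((Nat.fib (2 * k) : ℤ) : ℚ)
            / ((k : ℚ) ^ 2 * Nat.centralBinom k)) := by
        rw [mul_sum]
        exact sum_congr rfl fun k _ => by rw [hcb]; push_cast; rfl
      rw [e2]; exact hs
    · refine ⟨-(3 * (f : ℚ) * ((l : ℚ) ^ 2 - 5 * (f : ℚ) ^ 2) / 8)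
            + 3 * (ep p : ℚ) * p * ((l : ℚ) ^ 2 - 5 * (f : ℚ) ^ 2) ^ 2 / 64, ?_, ?_⟩
      rotate_left
      · rw [hε]
        rw [← a1]; ring
      · change PInt p _
        have : (-(3 * (f : ℚ) * ((l : ℚ) ^ 2 - 5 * (f : ℚ) ^ 2) / 8)
            + 3 * (ep p : ℚ) * p * ((l : ℚ) ^ 2 - 5 * (f : ℚ) ^ 2) ^ 2 / 64)
          = ((-3 * f : ℤ) : ℚ) * ((l : ℚ) ^ 2 - 5 * (f : ℚ) ^ 2) * (((2 ^ 3 : ℕ) : ℤ) : ℚ)⁻¹
            + ((3 * ep p * p : ℤ) : ℚ) * ((l : ℚ) ^ 2 - 5 * (f : ℚ) ^ 2) ^ 2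
              * (((2 ^ 6 : ℕ) : ℤ) : ℚ)⁻¹ := by
          push_cast; ring
        rw [this]
        exact (((PInt.int hp _).mul hp hR).mul hp (i2 3)).add hp
          (((PInt.int hp _).mul hp (hR.pow hp 2)).mul hp (i2 6))
  · refine Cong.trans' hp (b := -(l : ℚ) - p * (l : ℚ) ^ 2 / 2) ?_ ?_
    · have hs := cong_sum hp (Ico 1 p)
        (fun k => (p : ℚ) * ((luc (2 * k) : ℚ) / ((k : ℚ) ^ 2 * Nat.centralBinom k)))
        (fun k => (-(((-1) ^ k * ((((p + k).choose (2 * k) : ℤ) : ℚ)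
          + (((p - 1 + k).choose (2 * k) : ℤ) : ℚ))) * (luc (2 * k) : ℚ)) / (2 * p)))
        (fun k hk => by
          rw [mem_Ico] at hk
          exact term1 hp h2 hk.1 hk.2 _)
      have e1 : ∑ k ∈ Ico 1 p, (-(((-1) ^ k * ((((p + k).choose (2 * k) : ℤ) : ℚ)
          + (((p - 1 + k).choose (2 * k) : ℤ) : ℚ))) * (luc (2 * k) : ℚ)) / (2 * p))
          = -(l : ℚ) - p * (l : ℚ) ^ 2 / 2 := by
        rw [← sum_div, sum_neg_distrib]
        have : ∑ k ∈ Ico 1 p, ((-1) ^ k * ((((p + k).choose (2 * k) : ℤ) : ℚ)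
          + (((p - 1 + k).choose (2 * k) : ℤ) : ℚ))) * (luc (2 * k) : ℚ)
          = p * (2 * (l : ℚ) + p * (l : ℚ) ^ 2) := by exact_mod_cast y2
        rw [this]
        field_simp
        ring
      rw [e1] at hs
      have e2 : (p : ℚ) * ∑ k ∈ Ico 1 p, (lucas (2 * k) : ℚ) / ((k : ℚ) ^ 2 * Nat.choose (2 * k) k)
          = ∑ k ∈ Ico 1 p, (p : ℚ) * ((luc (2 * k) : ℚ)
            / ((k : ℚ) ^ 2 * Nat.centralBinom k)) := by
        rw [mul_sum]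
        exact sum_congr rfl fun k _ => by rw [hcb, (lucas_eq (2 * k)).1]
      rw [e2]; exact hs
    · refine ⟨-(5 * (ep p : ℚ) * f * ((l : ℚ) ^ 2 - 5 * (f : ℚ) ^ 2) / 8)
            + 5 * (p : ℚ) * ((l : ℚ) ^ 2 - 5 * (f : ℚ) ^ 2) ^ 2 / 64, ?_, ?_⟩
      rotate_left
      · rw [← a2]; ring
      · change PInt p _
        have : (-(5 * (ep p : ℚ) * f * ((l : ℚ) ^ 2 - 5 * (f : ℚ) ^ 2) / 8)
            + 5 * (p : ℚ) * ((l : ℚ) ^ 2 - 5 * (f : ℚ) ^ 2) ^ 2 / 64)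
          = ((-5 * ep p * f : ℤ) : ℚ) * ((l : ℚ) ^ 2 - 5 * (f : ℚ) ^ 2) * (((2 ^ 3 : ℕ) : ℤ) : ℚ)⁻¹
            + ((5 * p : ℤ) : ℚ) * ((l : ℚ) ^ 2 - 5 * (f : ℚ) ^ 2) ^ 2
              * (((2 ^ 6 : ℕ) : ℤ) : ℚ)⁻¹ := by
          push_cast; ring
        rw [this]
        exact (((PInt.int hp _).mul hp hR).mul hp (i2 3)).add hp
          (((PInt.int hp _).mul hp (hR.pow hp 2)).mul hp (i2 6))
  · rw [hpm, hpm']
    refine Cong.trans' hp (b := (-1) ^ (m + 2) * (f : ℚ)) ?_ ?_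
    · have hs := cong_sum hp (range (m + 1))
        (fun k => (Nat.centralBinom k : ℚ) * ((Nat.fib (2 * k + 1) : ℤ) : ℚ) / ((2 * k + 1) * 16 ^ k))
        (fun k => (((-1) ^ k * ((((m + 1 + 1 + k).choose (2 * k + 1) : ℤ) : ℚ)
          + (((m + 1 + k).choose (2 * k + 1) : ℤ) : ℚ))) * ((Nat.fib (2 * k + 1) : ℤ) : ℚ)) / p)
        (fun k hk => by
          rw [mem_range] at hk
          exact term2 hp hm hk _)
      have e1 : ∑ k ∈ range (m + 1), (((-1) ^ k * ((((m + 1 + 1 + k).choose (2 * k + 1) : ℤ) : ℚ)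
          + (((m + 1 + k).choose (2 * k + 1) : ℤ) : ℚ))) * ((Nat.fib (2 * k + 1) : ℤ) : ℚ)) / p
          = (-1) ^ (m + 2) * (f : ℚ) := by
        rw [← sum_div]
        have : ∑ k ∈ range (m + 1), ((-1) ^ k * ((((m + 1 + 1 + k).choose (2 * k + 1) : ℤ) : ℚ)
          + (((m + 1 + k).choose (2 * k + 1) : ℤ) : ℚ))) * ((Nat.fib (2 * k + 1) : ℤ) : ℚ)
          = (-1) ^ (m + 2) * (p * (f : ℚ)) := by exact_mod_cast hS3
        rw [this]
        field_simp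
      rw [e1] at hs
      have e2 : ∑ k ∈ range (m + 1), (Nat.choose (2 * k) k : ℚ) * Nat.fib (2 * k + 1)
          / ((2 * k + 1) * 16 ^ k) = ∑ k ∈ range (m + 1), (Nat.centralBinom k : ℚ)
            * ((Nat.fib (2 * k + 1) : ℤ) : ℚ) / ((2 * k + 1) * 16 ^ k) :=
        sum_congr rfl fun k _ => by rw [hcb]; push_cast; rfl
      rw [e2]; exact hs
    · refine ⟨(-1) ^ (m + 2) * (-((ep p : ℚ) * p * ((l : ℚ) ^ 2 - 5 * (f : ℚ) ^ 2) ^ 2) / 128), ?_, ?_⟩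
      · change PInt p _
        have : ((-1 : ℚ) ^ (m + 2) * (-((ep p : ℚ) * p * ((l : ℚ) ^ 2 - 5 * (f : ℚ) ^ 2) ^ 2) / 128))
          = (((-1) ^ (m + 2) * -(ep p * p) : ℤ) : ℚ) * ((l : ℚ) ^ 2 - 5 * (f : ℚ) ^ 2) ^ 2
              * (((2 ^ 7 : ℕ) : ℤ) : ℚ)⁻¹ := by
          push_cast; ring
        rw [this]
        exact ((PInt.int hp _).mul hp (hR.pow hp 2)).mul hp (i2 7)
      · rw [hε]
        linear_combination ((-1 : ℚ) ^ (m + 2)) * a3
  · rw [hpm, hpm']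
    refine Cong.trans' hp (b := (-1) ^ (m + 2) * (l : ℚ)) ?_ ?_
    · have hs := cong_sum hp (range (m + 1))
        (fun k => (Nat.centralBinom k : ℚ) * (luc (2 * k + 1) : ℚ) / ((2 * k + 1) * 16 ^ k))
        (fun k => (((-1) ^ k * ((((m + 1 + 1 + k).choose (2 * k + 1) : ℤ) : ℚ)
          + (((m + 1 + k).choose (2 * k + 1) : ℤ) : ℚ))) * (luc (2 * k + 1) : ℚ)) / p)
        (fun k hk => by
          rw [mem_range] at hk
          exact term2 hp hm hk _)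
      have e1 : ∑ k ∈ range (m + 1), (((-1) ^ k * ((((m + 1 + 1 + k).choose (2 * k + 1) : ℤ) : ℚ)
          + (((m + 1 + k).choose (2 * k + 1) : ℤ) : ℚ))) * (luc (2 * k + 1) : ℚ)) / p
          = (-1) ^ (m + 2) * (l : ℚ) := by
        rw [← sum_div]
        have : ∑ k ∈ range (m + 1), ((-1) ^ k * ((((m + 1 + 1 + k).choose (2 * k + 1) : ℤ) : ℚ)
          + (((m + 1 + k).choose (2 * k + 1) : ℤ) : ℚ))) * (luc (2 * k + 1) : ℚ)
          = (-1) ^ (m + 2) * (p * (l : ℚ)) := by exact_mod_cast hS4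
        rw [this]
        field_simp
      rw [e1] at hs
      have e2 : ∑ k ∈ range (m + 1), (Nat.choose (2 * k) k : ℚ) * lucas (2 * k + 1)
          / ((2 * k + 1) * 16 ^ k) = ∑ k ∈ range (m + 1), (Nat.centralBinom k : ℚ)
            * (luc (2 * k + 1) : ℚ) / ((2 * k + 1) * 16 ^ k) :=
        sum_congr rfl fun k _ => by rw [hcb, (lucas_eq (2 * k + 1)).1]
      rw [e2]; exact hs
    · refine ⟨(-1) ^ (m + 2) * (-((p : ℚ) * ((l : ℚ) ^ 2 - 5 * (f : ℚ) ^ 2) ^ 2) / 128), ?_, ?_⟩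
      · change PInt p _
        have : ((-1 : ℚ) ^ (m + 2) * (-((p : ℚ) * ((l : ℚ) ^ 2 - 5 * (f : ℚ) ^ 2) ^ 2) / 128))
          = (((-1) ^ (m + 2) * -(p : ℤ) : ℤ) : ℚ) * ((l : ℚ) ^ 2 - 5 * (f : ℚ) ^ 2) ^ 2
              * (((2 ^ 7 : ℕ) : ℤ) : ℚ)⁻¹ := by
          push_cast; ring
        rw [this]
        exact ((PInt.int hp _).mul hp (hR.pow hp 2)).mul hp (i2 7)
      · linear_combination ((-1 : ℚ) ^ (m + 2)) * a4

end Pool.Agent.Results.MP_0a65fc_nt.FourCongruences
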